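import Pool.Agent.H34.UC.Fin

/-!
# Weak compactness and affine maps: a universal Lipschitz constant

Let `X` be any real or complex Banach space and let `C` be a nonempty bounded closed convex subset
of `X` which is not weakly compact. For every `ε > 0` there are a nonempty bounded closed convex set
`K ⊆ C` and a one-parameter semigroup `f_s : K → K`, `s ≥ 0`, of affine maps such that

* all `f_s` (hence all iterates of each of them) are Lipschitz with the UNIVERSAL constant `2 + ε`,
* `f_s - id` is Lipschitz with the constant `ε s` and `‖f_s x - x‖ ≤ ε s` on `K`,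
* no `f_s` with `s > 0` has a fixed point.

There are also a decreasing sequence `K = K_0 ⊇ K_1 ⊇ ⋯` of nonempty closed convex sets with
empty intersection and affine retractions `r_m : K → K_m` with `r_m r_n = r_(max(m,n))`, which
commute with the `f_s` and are Lipschitz with the constant `2 + ε`.

So, for every `ε > 0`, the set `C` is weakly compact if and only if all affine `f : K → K`, `K ⊆ C`
nonempty, closed and convex, for which `f - id` is Lipschitz with constant `ε` and all iterates
`f^p` are Lipschitz with constant `2 + ε`, have fixed points.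

In particular the answer to the question is yes: the map `f_1` is uniformly Lipschitz, affine and
without fixed points. For `ε < 1` the same map satisfies
`(1 - ε) ‖x - y‖ ≤ ‖f x - f y‖ ≤ (1 + ε) ‖x - y‖`.

Earlier: the existence of a fixed point free uniformly Lipschitz affine map, with a Lipschitz constant
which depends on `C`, is in the library of this project
(`MP_f650bf_an.UniformlyLipschitzAffine` and others); its constant comes from a sequence in `C`
whose differences form a basic sequence with some basis constant. What is new is the selection of such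
a sequence with basis constant `1 + ε` in EVERY `C`: if `Λ` is an element of the bidual in
the weak* closure of a convex set `A ⊆ X`, and `‖Λ - b‖ < r`, then `Λ` is in the weak* closure of
`A ∩ {‖x - b‖ < r}` (Hahn-Banach). By using a finite net of a finite dimensional subspace `F` one finds
points `x` of `C`, as close to `Λ` as one likes on finitely many functionals, such that
`‖u + c x‖ ≤ (1 + ε) ‖u + c Λ‖` for all `u ∈ F` and all numbers `c`.
-/

set_option autoImplicit false

open Set Filter Topology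

namespace Pool.Agent.Results.MP_f650bf_an.UniversalConstant

/-- `K` is a member of `𝓑(M)`: a nonempty, bounded, closed, convex subset of `M`. -/
structure InB {X : Type*} [NormedAddCommGroup X] [NormedSpace ℝ X] (M K : Set X) : Prop where
  subset : K ⊆ M
  nonempty : K.Nonempty
  bounded : Bornology.IsBounded K
  closed : IsClosed K
  convex : Convex ℝ K

/-- `g` maps `K` into `K'` and is affine on `K`. -/
def IsAffineMap {X : Type*} [NormedAddCommGroup X] [NormedSpace ℝ X] (K K' : Set X) (g : X → X) :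
    Prop :=
  (∀ x ∈ K, g x ∈ K') ∧ ∀ x ∈ K, ∀ y ∈ K, ∀ t ∈ Icc (0 : ℝ) 1,
    g (t • x + (1 - t) • y) = t • g x + (1 - t) • g y

/-- `g` is Lipschitz on `K` with the constant `L`. -/
def LipWith {X : Type*} [NormedAddCommGroup X] (K : Set X) (L : ℝ) (g : X → X) : Prop :=
  ∀ x ∈ K, ∀ y ∈ K, ‖g x - g y‖ ≤ L * ‖x - y‖

/-- `f s`, `s ≥ 0`, is a one-parameter semigroup of affine self-maps of `K`. -/
structure IsAffineSemigroup {X : Type*} [NormedAddCommGroup X] [NormedSpace ℝ X] (K : Set X)
    (f : ℝ → X → X) : Prop where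
  affine : ∀ s, 0 ≤ s → IsAffineMap K K (f s)
  zero : ∀ x ∈ K, f 0 x = x
  add : ∀ s t, 0 ≤ s → 0 ≤ t → ∀ x ∈ K, f (s + t) x = f s (f t x)

/-- `K 0 ⊇ K 1 ⊇ ⋯` has empty intersection, and the `r m` are affine retractions of `K 0` onto `K m`
with `r m ∘ r n = r (max m n)`. -/
structure IsRetractionTower {X : Type*} [NormedAddCommGroup X] [NormedSpace ℝ X] (K : ℕ → Set X)
    (r : ℕ → X → X) : Prop where
  anti : ∀ m n, m ≤ n → K n ⊆ K m
  empty : ⋂ m, K m = ∅
  affine : ∀ m, IsAffineMap (K 0) (K m) (r m)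
  retract : ∀ m, ∀ x ∈ K m, r m x = x
  comp : ∀ m n, ∀ x ∈ K 0, r m (r n x) = r (max m n) x

open Pool.Agent.R270.UL Pool.Agent.H34.UC in
theorem main {X : Type*} [NormedAddCommGroup X] [NormedSpace ℝ X] [CompleteSpace X] (C : Set X)
    (hC : InB univ C) (ε : ℝ) (hε : 0 < ε) (hnw : ¬ IsCompact (toWeakSpace ℝ X '' C)) :
    ∃ (K : ℕ → Set X) (r : ℕ → X → X) (f : ℝ → X → X),
      (∀ m, InB C (K m)) ∧ IsRetractionTower K r ∧ IsAffineSemigroup (K 0) f ∧
      (∀ m, LipWith (K 0) (2 + ε) (r m)) ∧
      (∀ s, 0 ≤ s → LipWith (K 0) (2 + ε) (f s)) ∧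
      (∀ s, 0 ≤ s → LipWith (K 0) (ε * s) (fun x => f s x - x)) ∧
      (∀ s, 0 ≤ s → ∀ x ∈ K 0, ‖f s x - x‖ ≤ ε * s) ∧
      (∀ s, 0 < s → ∀ x ∈ K 0, f s x ≠ x) ∧
      ∀ m s, 0 ≤ s → ∀ x ∈ K 0, r m (f s x) = f s (r m x) := by
  obtain ⟨x, κ, h, hxC⟩ := exists_good hC.bounded hC.closed hC.convex hnw (half_pos hε)
  obtain ⟨R, hR⟩ := hC.bounded.exists_norm_le
  have hD : ∀ i j, ‖x i - x j‖ ≤ R + R := fun i j =>
    (norm_sub_le _ _).trans (add_le_add (hR _ (hxC i)) (hR _ (hxC j)))
  have hD0 : 0 ≤ R + R := (norm_nonneg _).trans (hD 0 0)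
  obtain ⟨F, hF⟩ := exists_act h hD
  have hL0 : 0 ≤ 1 + ε / 2 := h.L0
  obtain ⟨c, hc⟩ : ∃ c : ℝ, c = ε / (R + R + (1 + ε / 2)) := ⟨_, rfl⟩
  have hc0 : 0 < c := by rw [hc]; positivity
  have hcs : c * (R + R + (1 + ε / 2)) = ε := by
    rw [hc]
    exact div_mul_cancel₀ _ (by positivity)
  have hlip : ∀ B, Mult B → LipWith (KK x) (2 + ε) (F B) := by
    intro B hB z hz z' hz'
    refine (act_lip h hF hB hz hz').trans (le_of_eq ?_)
    ring
  have hKC : KK x ⊆ C := KK_subset hC.closed hC.convex hxC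
  refine ⟨KM x F, fun m => F (cut m), fun s => F (flow c s), fun m => ?_, ?_, ?_, ?_, ?_, ?_, ?_,
    ?_, ?_⟩
  · exact ⟨fun z hz => hKC hz.1, ⟨_, KM_maps hF m mem_KK_zero⟩,
      hC.bounded.subset fun z hz => hKC hz.1, KM_closed h hF m, KM_convex hF m⟩
  · refine ⟨fun m n hmn => KM_anti hF hmn, KM_inter h hF, fun m => ⟨fun z hz => KM_maps hF m hz.1,
      fun z hz z' hz' t ht => act_affine hF (mult_cut m) hz.1 hz'.1 ht.1 ht.2⟩,
      fun m z hz => hz.2, fun m n z hz => ?_⟩
    rw [act_act hF (mult_cut m) (mult_cut n) hz.1, cut_mul]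
  · rw [KM_zero hF]
    refine ⟨fun s hs => ⟨fun z hz => act_mem hF (mult_flow hc0.le hs) hz, fun z hz z' hz' t ht =>
      act_affine hF (mult_flow hc0.le hs) hz hz' ht.1 ht.2⟩, fun z hz => ?_,
      fun s t hs ht z hz => ?_⟩
    · rw [flow_zero]
      exact act_one hF hz
    · rw [act_act hF (mult_flow hc0.le hs) (mult_flow hc0.le ht) hz, flow_add]
  · rw [KM_zero hF]
    exact fun m => hlip _ (mult_cut m)
  · rw [KM_zero hF]
    exact fun s hs => hlip _ (mult_flow hc0.le hs)
  · rw [KM_zero hF]
    intro s hs z hz z' hz'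
    refine (act_near h hF (mult_flow hc0.le hs) hz hz').trans ?_
    rw [← mul_assoc]
    refine mul_le_mul_of_nonneg_right ?_ (norm_nonneg _)
    have h1 := flow_ge (c := c) (s := s) 0
    have h2 := mul_le_mul_of_nonneg_right h1 hL0
    refine h2.trans ?_
    have h3 : c * (1 + ε / 2) ≤ ε := by
      have := mul_nonneg hc0.le hD0
      nlinarith
    have h4 := mul_le_mul_of_nonneg_left h3 hs
    have h5 := mul_nonneg (mul_nonneg hs hc0.le) hL0
    norm_num
    nlinarith
  · rw [KM_zero hF]
    intro s hs z hz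
    refine (act_move hF hD (mult_flow hc0.le hs) (mul_nonneg hs hc0.le) flow_ge hz).trans ?_
    have h3 : c * (R + R) ≤ ε := by
      have := mul_nonneg hc0.le hL0
      nlinarith
    have h4 := mul_le_mul_of_nonneg_left h3 hs
    linarith
  · rw [KM_zero hF]
    intro s hs z hz
    exact act_no_fixed h hF (mult_flow hc0.le hs.le) (flow_lt hc0 hs) hz
  · rw [KM_zero hF]
    intro m s hs z hz
    change F (cut m) (F (flow c s) z) = F (flow c s) (F (cut m) z)
    rw [act_act hF (mult_cut m) (mult_flow hc0.le hs) hz,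
      act_act hF (mult_flow hc0.le hs) (mult_cut m) hz]
    congr 1
    funext k
    ring

/-- **Theorem.** Let `X` be a Banach space over `ℝ` or `ℂ`, `C ⊆ X` nonempty, bounded, closed and
convex, and `ε > 0`.

(1) If `C` is not weakly compact, there are nonempty bounded closed convex sets
`C ⊇ K_0 ⊇ K_1 ⊇ ⋯` with empty intersection, affine retractions `r_m : K_0 → K_m` with
`r_m r_n = r_(max(m,n))`, and a one-parameter semigroup `f_s : K_0 → K_0`, `s ≥ 0`, of affine maps
which commute with the `r_m`, such that all `r_m` and all `f_s` are Lipschitz with constant `2 + ε`,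
`f_s - id` is Lipschitz with constant `ε s`, `‖f_s x - x‖ ≤ ε s`, and `f_s` has no fixed point if
`s > 0`.

(2) `C` is weakly compact if and only if, for all nonempty bounded closed convex `K ⊆ C`, every
affine `f : K → K` such that `f - id` is Lipschitz with constant `ε` and all iterates of `f` are
Lipschitz with constant `2 + ε` has a fixed point. -/
theorem result {𝕜 X : Type*} [RCLike 𝕜] [NormedAddCommGroup X] [NormedSpace ℝ X]
    [NormedSpace 𝕜 X] [IsScalarTower ℝ 𝕜 X] [CompleteSpace X] (C : Set X) (hC : InB univ C)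
    (ε : ℝ) (hε : 0 < ε) :
    (¬ IsCompact (toWeakSpace 𝕜 X '' C) →
      ∃ (K : ℕ → Set X) (r : ℕ → X → X) (f : ℝ → X → X),
        (∀ m, InB C (K m)) ∧ IsRetractionTower K r ∧ IsAffineSemigroup (K 0) f ∧
        (∀ m, LipWith (K 0) (2 + ε) (r m)) ∧
        (∀ s, 0 ≤ s → LipWith (K 0) (2 + ε) (f s)) ∧
        (∀ s, 0 ≤ s → LipWith (K 0) (ε * s) (fun x => f s x - x)) ∧
        (∀ s, 0 ≤ s → ∀ x ∈ K 0, ‖f s x - x‖ ≤ ε * s) ∧
        (∀ s, 0 < s → ∀ x ∈ K 0, f s x ≠ x) ∧
        ∀ m s, 0 ≤ s → ∀ x ∈ K 0, r m (f s x) = f s (r m x)) ∧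
    (IsCompact (toWeakSpace 𝕜 X '' C) ↔
      ∀ K : Set X, InB C K → ∀ f : X → X, IsAffineMap K K f →
        LipWith K ε (fun x => f x - x) → (∀ p : ℕ, LipWith K (2 + ε) f^[p]) →
        ∃ x ∈ K, f x = x) := by
  rw [Pool.Agent.H34.UC.weak_iff]
  refine ⟨main C hC ε hε, fun hw K hK f hf _ hL => ?_, fun h => ?_⟩
  · exact Pool.Agent.R270.UL.exists_fixed_point hw hK.subset hK.nonempty hK.bounded hK.closed
      hK.convex f hf.1 hf.2 ⟨2 + ε, by positivity, fun x hx y hy p => hL p x hx y hy⟩
  · by_contra hnw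
    obtain ⟨K, r, f, hK, hr, hf, h1, h2, h3, h4, h5, h6⟩ := main C hC ε hε hnw
    have hit : ∀ p : ℕ, ∀ x ∈ K 0, (f 1)^[p] x = f p x := by
      intro p
      induction p with
      | zero =>
        intro x hx
        rw [Nat.cast_zero, hf.zero x hx]
        rfl
      | succ p ih =>
        intro x hx
        rw [Function.iterate_succ_apply', ih x hx, ← hf.add 1 p zero_le_one (Nat.cast_nonneg p) x hx]
        push_cast
        rw [add_comm]
    obtain ⟨x, hx, hfx⟩ := h (K 0) (hK 0) (f 1) (hf.affine 1 zero_le_one)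
      (by
        have := h3 1 zero_le_one
        rwa [mul_one] at this)
      (fun p x hx y hy => by
        rw [hit p x hx, hit p y hy]
        exact h2 p (Nat.cast_nonneg p) x hx y hy)
    exact h5 1 one_pos x hx hfx

end Pool.Agent.Results.MP_f650bf_an.UniversalConstant
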